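import Pool.Agent.NSC.Final

/-!
# No amorphous sets versus non-scattered compactifications of discrete spaces

There is a model of `ZF` in which there are no amorphous sets, and in which some infinite discrete
space has only scattered Hausdorff compactifications.
-/

namespace Pool.Agent.Results.MP_634b21_lc.NASNotINSHC

/-- There is a model of `ZF` in which `NAS` holds and `INSHC` fails. -/
theorem result : ∃ (M : Type) (E : M → M → Prop),
    NSC.ZF E ∧ NSC.NAS E ∧ ¬ NSC.INSHC E := NSC.exists_model

end Pool.Agent.Results.MP_634b21_lc.NASNotINSHC
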